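import Pool.Agent.H97.TR.Defs
import Pool.Agent.H97.FB.ANV

/-! # [H87 TR XRP] The real number `XR` -/

namespace Pool.Agent.H87.TR

open Finset Polynomial Pool.Agent.H72.ES Pool.Agent.H87.SA2 Pool.Agent.H8.AW Pool.Agent.H52.AC
  Pool.Agent.H97.FB Pool.Agent.H97.TR

variable {g : ℤ[X][X]} {n : ℕ}

theorem XR_pos (pd : PData g n) {a w : ℕ} (ha : 1 ≤ a) (hw : 1 ≤ w) : 0 < XR pd a w := by
  unfold XR
  have h1 : (0 : ℝ) < a := by exact_mod_cast ha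
  have h2 : (0 : ℝ) < w := by exact_mod_cast hw
  exact mul_pos (by linarith [anv_q pd]) (Real.rpow_pos_of_pos (div_pos h1 h2) _)

theorem XR_pow (pd : PData g n) (a w : ℕ) :
    XR pd a w ^ pd.e = (pd.q : ℝ) ^ pd.e * ((a : ℝ) / w) := by
  unfold XR
  have h0 : (0 : ℝ) ≤ (a : ℝ) / w := by positivity
  rw [mul_pow, ← Real.rpow_natCast (((a : ℝ) / w) ^ ((1 : ℝ) / pd.e)), ← Real.rpow_mul h0,
    one_div, inv_mul_cancel₀, Real.rpow_one]
  have := anv_e pd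
  linarith

/-- the ratio is large -/
theorem ratio_le {B C a w : ℕ} (hw : 1 ≤ w) (h : B ^ C * w ≤ a) : ((B ^ C : ℕ) : ℝ) ≤ (a : ℝ) / w := by
  have h2 : (0 : ℝ) < w := by exact_mod_cast hw
  rw [le_div_iff₀ h2]
  exact_mod_cast h

end Pool.Agent.H87.TR
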