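import Pool.Agent.H98.TY.Defs
import Pool.Agent.H87.TR.XRP
import Pool.Agent.H87.TW.UNR
import Pool.Agent.H87.TX.UNX
import Pool.Agent.H87.TX.MIN

/-! # [H87 TR RER] Reduction of the Puiseux data to minimal ramification, rational fibres

As `exists_red` (`Pool/Agent/H98/TY/RED.lean`) with `thR`. -/

namespace Pool.Agent.H87.TR

open Finset Polynomial Pool.Agent.H72.ES Pool.Agent.H87.SA2 Pool.Agent.H8.AW Pool.Agent.H52.AC
  Pool.Agent.H97.NW Pool.Agent.H97.FB Pool.Agent.H97.TU Pool.Agent.H97.TV Pool.Agent.H87.TW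
  Pool.Agent.H87.TX Pool.Agent.H98.TY Pool.Agent.H97.TR

theorem exists_redR (n m : ℕ) : ∃ C : ℕ, 1 ≤ C ∧ ∀ (B : ℕ) (f : ℤ[X][X]) (Fm : FamB n m B f),
    ∃ Fm' : FamB n m (B ^ C) f, Mnl Fm'.pd ∧
      (∀ a w : ℕ, 1 ≤ w → B ^ C * w ≤ a → ∀ u, thR Fm'.pd m a w u = thR Fm.pd m a w u) ∧
      ∀ (σ : AA →+* ℂ) (π : Equiv.Perm (Fin n)), PrmB Fm'.pd σ π → PrmB Fm.pd σ π := by
  refine ⟨n.factorial + 1, by omega, fun B f Fm => ?_⟩
  obtain ⟨k, pd', hk1, hek, hq, hR, hco, hnd, hev, hmin⟩ := exists_min Fm.pd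
  have hB := Fm.B2
  have hR2 := Fm.pd.R_ge
  have he'1 := pd'.e_pos
  have hke : k ≤ Fm.pd.e := by
    rw [hek]
    exact Nat.le_mul_of_pos_right k he'1
  have he'e : pd'.e ≤ Fm.pd.e := by
    rw [hek]
    exact Nat.le_mul_of_pos_left _ hk1
  have hBB : B ≤ B ^ (n.factorial + 1) := by
    calc B = B ^ 1 := (pow_one B).symm
      _ ≤ B ^ (n.factorial + 1) := Nat.pow_le_pow_right (by omega) (by omega)
  have hBk : B ^ k ≤ B ^ (n.factorial + 1) :=
    Nat.pow_le_pow_right (by omega) ((hke.trans Fm.e_le).trans (Nat.le_succ _))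
  have hRk : Fm.pd.R ^ k ≤ ((B ^ k : ℕ) : ℝ) := by
    rw [Nat.cast_pow]
    exact pow_le_pow_left₀ (by linarith) Fm.R_le _
  refine ⟨{ n2 := Fm.n2
            m1 := Fm.m1
            B2 := hB.trans hBB
            monic := Fm.monic
            deg := Fm.deg
            cdeg := Fm.cdeg
            le := fun i j => (Fm.le i j).trans (by exact_mod_cast hBB)
            irr := Fm.irr
            pd := pd'
            e_le := he'e.trans Fm.e_le
            q_le := by
              rw [hq]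
              exact (Nat.pow_le_pow_left Fm.q_le _).trans hBk
            R_le := by
              rw [hR]
              exact hRk.trans (by exact_mod_cast hBk)
            bez := by
              obtain ⟨u, v, c, h1, h2, h3, h4⟩ := Fm.bez
              exact ⟨u, v, c, h1, h2, h3, fun i => (h4 i).trans (by exact_mod_cast hBB)⟩ },
    hmin, ?_, ?_⟩
  · intro a w hw ha u
    show thR pd' m a w u = thR Fm.pd m a w u
    have ha1 : 1 ≤ a := by
      have : 1 ≤ B ^ (n.factorial + 1) := Nat.one_le_pow _ _ (by omega)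
      exact (Nat.mul_pos this hw).trans_le ha
    have hX := XR_pos Fm.pd ha1 hw
    have hX' := XR_pos pd' ha1 hw
    have hXX : XR pd' a w = XR Fm.pd a w ^ k := by
      refine (pow_left_inj₀ hX'.le (pow_pos hX k).le (by omega : pd'.e ≠ 0)).1 ?_
      rw [XR_pow, hq, ← pow_mul, ← hek, XR_pow, Nat.cast_pow, ← pow_mul, ← hek]
    have hRe : Fm.pd.R ^ Fm.pd.e ≤ ((B ^ Fm.pd.e : ℕ) : ℝ) := by
      rw [Nat.cast_pow]
      exact pow_le_pow_left₀ (by linarith) Fm.R_le _
    have hlt : Fm.pd.R < XR Fm.pd a w := by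
      refine lt_of_pow_lt_pow_left₀ Fm.pd.e hX.le ?_
      rw [XR_pow]
      have h1 : ((B ^ Fm.pd.e : ℕ) : ℝ) < (a : ℝ) / w := by
        have h2 : B ^ Fm.pd.e < B ^ (n.factorial + 1) :=
          Nat.pow_lt_pow_right (by omega) (Nat.lt_succ_of_le Fm.e_le)
        exact lt_of_lt_of_le (by exact_mod_cast h2) (ratio_le hw ha)
      have h2 : (1 : ℝ) ≤ (Fm.pd.q : ℝ) ^ Fm.pd.e := one_le_pow₀ (anv_q Fm.pd)
      have h3 : (0 : ℝ) ≤ (a : ℝ) / w := by positivity
      calc Fm.pd.R ^ Fm.pd.e ≤ ((B ^ Fm.pd.e : ℕ) : ℝ) := hRe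
        _ < (a : ℝ) / w := h1
        _ = 1 * ((a : ℝ) / w) := (one_mul _).symm
        _ ≤ (Fm.pd.q : ℝ) ^ Fm.pd.e * ((a : ℝ) / w) := mul_le_mul_of_nonneg_right h2 h3
    have hlt' : pd'.R < XR pd' a w := by
      rw [hR, hXX]
      exact pow_lt_pow_left₀ hlt (by linarith) (by omega)
    have hgr : Gr (1 / XR Fm.pd a w) (Fm.pd.x u) := by
      refine anv_gr Fm.pd (one_div_pos.2 hX).le ?_ u
      rw [mul_one_div, div_lt_one hX]
      exact hlt
    have hgr' : Gr (1 / XR pd' a w) (pd'.x u) := by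
      refine anv_gr pd' (one_div_pos.2 hX').le ?_ u
      rw [mul_one_div, div_lt_one hX']
      exact hlt'
    rw [thR, thR, evC_eq_evz (one_div_pos.2 hX).le hgr, evC_eq_evz (one_div_pos.2 hX').le hgr', hev u]
    congr 2
    rw [hXX]
    push_cast
    rw [div_pow, one_pow]
  · rintro σ π ⟨ξ', hξ', h⟩
    obtain ⟨ξ, hξ⟩ := IsAlgClosed.exists_pow_nat_eq ξ' (by omega : 0 < k)
    have hξe : ξ' ^ pd'.e = 1 := hξ'
    refine ⟨ξ, ?_, ?_⟩
    · rw [hek, pow_mul, hξ, hξe]
    · intro u j a ha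
      by_cases hkj : k ∣ j
      · obtain ⟨l, rfl⟩ := hkj
        have h1 := h u l a (by rw [ha]; exact (hco u l).symm)
        have h2 : PowerSeries.coeff l (pd'.x (π u)) = PowerSeries.coeff (k * l) (Fm.pd.x (π u)) :=
          hco (π u) l
        rw [pow_mul, hξ, h1]
        exact h2
      · rw [hnd u j hkj] at ha
        have ha0 : a = 0 := by
          apply Subtype.ext
          rw [ha]
          rfl
        rw [ha0, map_zero, mul_zero, hnd _ j hkj]

end Pool.Agent.H87.TR
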