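import Pool.Agent.H97.TR.Defs
import Pool.Agent.H87.TW.SPR

/-! # [H87 TR EVR] The values of the branches at a rational point

As `evy_rlx` (`Pool/Agent/H87/TW/SPR.lean`) for a point with complex coordinates, and for the homogenised curve at the
integer point `(x, y)`. -/

namespace Pool.Agent.H87.TR

open Finset Polynomial Pool.Agent.H72.ES Pool.Agent.H87.SA2 Pool.Agent.H8.AW Pool.Agent.H52.AC
  Pool.Agent.H87.TW Pool.Agent.H97.TR

theorem evy_rlxC {d : ℕ} {F : ℕ → ℕ → ℤ} (pd : PData (fI d F) d) {U ρ : ℝ} (hU : 0 ≤ U) (hρ : 0 ≤ ρ)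
    (hg : ∀ i k, ‖PowerSeries.coeff k (pd.x i)‖ ≤ U * ρ ^ k) {T : ℂ} (hT : ρ * ‖T‖ < 1) {x y : ℂ}
    (hTx : ((pd.q : ℂ) * T) ^ pd.e * x = 1) {i : Fin d}
    (hi : evz T (pd.x i) = y / x)
    (huniq : ∀ j, evz T (pd.x j) = y / x → j = i) :
    ev d (cst ℂ F) x y = 0 ∧ evy d (cst ℂ F) x y ≠ 0 := by
  classical
  have hx : x ≠ 0 := right_ne_zero_of_mul_eq_one hTx
  obtain ⟨t, ht⟩ : ∃ t : ℂ, t = ((pd.q : ℂ) * T) ^ pd.e := ⟨_, rfl⟩
  have hyx : y / x = t * y := by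
    rw [div_eq_iff hx, mul_right_comm, ht, hTx, one_mul]
  have hsp := split_rlx pd hU hρ hg hT
  rw [← ht] at hsp hTx
  have hfac : (∏ k, (X - C (evz T (pd.x k))) : ℂ[X]) = (X - C (evz T (pd.x i))) *
      ∏ k ∈ univ.erase i, (X - C (evz T (pd.x k))) :=
    (mul_prod_erase univ (fun k => (X - C (evz T (pd.x k)) : ℂ[X])) (mem_univ i)).symm
  refine ⟨?_, ?_⟩
  · have h1 : evt d (cst ℂ F) t (t * y) = 0 := by
      rw [← H52.AC.fI_eval, hsp, hfac, eval_mul, eval_sub, eval_X, eval_C, hi, hyx, sub_self,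
        zero_mul]
    have h2 := ev_eq_evt d (cst ℂ F) x y (t := t) hTx
    rw [h1, mul_zero] at h2
    exact h2
  · intro h0
    have h1 := fI_deriv d F (x := x) (y := y) (t := t) hTx
    rw [h0, mul_zero, ← derivative_map, hsp, ← hyx, hfac, derivative_mul,
      derivative_sub, derivative_X, derivative_C, sub_zero, one_mul, eval_add, eval_mul, eval_sub,
      eval_X, eval_C, hi, sub_self, zero_mul, add_zero, eval_prod, prod_eq_zero_iff] at h1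
    obtain ⟨k, hk, hk0⟩ := h1
    rw [eval_sub, eval_X, eval_C, sub_eq_zero] at hk0
    exact (mem_erase.1 hk).1 (huniq k hk0.symm)

theorem ev_homF (d : ℕ) (F : ℕ → ℕ → ℤ) {w : ℕ} (hw : 1 ≤ w) (x y : ℤ) :
    ((ev d (homF d w F) x y : ℤ) : ℂ) = (w : ℂ) ^ d * ev d (cst ℂ F) ((x : ℂ) / w) ((y : ℂ) / w) := by
  have hw0 : (w : ℂ) ≠ 0 := by
    have : w ≠ 0 := by omega
    exact_mod_cast this
  unfold ev homF cst
  push_cast
  rw [mul_sum]
  refine sum_congr rfl fun i hi => ?_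
  rw [mul_sum]
  refine sum_congr rfl fun j hj => ?_
  rw [mem_range] at hi hj
  have h1 : (w : ℂ) ^ d = (w : ℂ) ^ (d - i - j) * ((w : ℂ) ^ i * (w : ℂ) ^ j) := by
    rw [← pow_add, ← pow_add]
    congr 1
    omega
  rw [h1, div_pow, div_pow]
  field_simp

theorem evy_homF (d : ℕ) (F : ℕ → ℕ → ℤ) {w : ℕ} (hw : 1 ≤ w) (x y : ℤ) :
    (w : ℂ) * ((evy d (homF d w F) x y : ℤ) : ℂ) =
      (w : ℂ) ^ d * evy d (cst ℂ F) ((x : ℂ) / w) ((y : ℂ) / w) := by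
  have hw0 : (w : ℂ) ≠ 0 := by
    have : w ≠ 0 := by omega
    exact_mod_cast this
  unfold evy homF cst
  push_cast
  rw [mul_sum, mul_sum]
  refine sum_congr rfl fun i hi => ?_
  rw [mul_sum, mul_sum]
  refine sum_congr rfl fun j hj => ?_
  rw [mem_range] at hi hj
  rcases Nat.eq_zero_or_pos j with h0 | h0
  · subst h0
    simp
  · obtain ⟨k, rfl⟩ : ∃ k, j = k + 1 := ⟨j - 1, by omega⟩
    have h1 : (w : ℂ) ^ d = (w : ℂ) ^ (d - i - (k + 1)) * ((w : ℂ) ^ i * (w : ℂ) ^ k * w) := by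
      rw [mul_assoc, ← pow_succ, ← pow_add, ← pow_add]
      congr 1
      omega
    rw [h1, div_pow, div_pow, Nat.add_sub_cancel]
    field_simp

theorem evyR {d : ℕ} {F : ℕ → ℕ → ℤ} (pd : PData (fI d F) d) {U ρ : ℝ} (hU : 0 ≤ U) (hρ : 0 ≤ ρ)
    (hg : ∀ i k, ‖PowerSeries.coeff k (pd.x i)‖ ≤ U * ρ ^ k) {T : ℂ} (hT : ρ * ‖T‖ < 1) {x y : ℤ}
    {w : ℕ} (hw : 1 ≤ w) (hTx : ((pd.q : ℂ) * T) ^ pd.e * (x : ℂ) = w) {i : Fin d}
    (hi : evz T (pd.x i) = (y : ℂ) / (x : ℂ))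
    (huniq : ∀ j, evz T (pd.x j) = (y : ℂ) / (x : ℂ) → j = i) :
    ev d (homF d w F) x y = 0 ∧ evy d (homF d w F) x y ≠ 0 := by
  have hw0 : (w : ℂ) ≠ 0 := by
    have : w ≠ 0 := by omega
    exact_mod_cast this
  have hx0 : (x : ℂ) ≠ 0 := by
    intro h
    rw [h, mul_zero] at hTx
    exact hw0 hTx.symm
  have hyx : (y : ℂ) / (x : ℂ) = ((y : ℂ) / w) / ((x : ℂ) / w) := by
    field_simp
  have hTx' : ((pd.q : ℂ) * T) ^ pd.e * ((x : ℂ) / w) = 1 := by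
    rw [mul_div_assoc', hTx, div_self hw0]
  obtain ⟨h1, h2⟩ := evy_rlxC pd hU hρ hg hT hTx' (by rw [hi, hyx]) (fun j hj => huniq j (by
    rw [hj, hyx]))
  refine ⟨?_, ?_⟩
  · have h3 := ev_homF d F hw x y
    rw [h1, mul_zero] at h3
    exact_mod_cast h3
  · intro h0
    have h3 := evy_homF d F hw x y
    rw [h0, Int.cast_zero, mul_zero] at h3
    exact mul_ne_zero (pow_ne_zero d hw0) h2 h3.symm

end Pool.Agent.H87.TR
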